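import Pool.Agent.Helper64.LGS.ExtPrime
import Pool.Agent.Helper43.LGS.ExtSmall
import Pool.Agent.Helper65.LGS.Ser
import Pool.Agent.Helper75.LG.Grp

/-!
# The number of isomorphism types of groups with a subnormal series whose factors are small or of
prime order
-/

set_option autoImplicit false

namespace Pool.Agent.Helper72.LGS

/-- a group with an injective numbering of its elements and `L` generators -/
structure Rep (K L : ℕ) where
  X : Type
  grp : Group X
  e : X → Fin K
  g : Fin L → X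
  inj : Function.Injective e
  gen : Subgroup.closure (Set.range g) = ⊤

instance (K L : ℕ) (R : Rep K L) : Group R.X := R.grp

abbrev DatP (K L : ℕ) := Fin (K + 1) × (Fin L → Fin K) × Fin K

abbrev DatS (M K L : ℕ) := (k : Fin (M + 1)) ×
  ((Fin k → Fin k → Fin k) × (Fin k → Fin L → Fin K) × (Fin k → Fin k → Fin K))

/-- description of a group with a normal subgroup of prime index isomorphic to `R.X` -/
def DescP {K L : ℕ} (R : Rep K L) (H : Type) [Group H] (d : DatP K L) : Prop :=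
  ∃ (N : Subgroup H) (_ : N.Normal) (x : H) (φ : N ≃* R.X),
    (d.1 : ℕ).Prime ∧ N.index = d.1 ∧ x ∉ N ∧
    (∀ j, R.e (φ (MulAut.conjNormal x (φ.symm (R.g j)))) = d.2.1 j) ∧
    (∀ m : N, (m : H) = x ^ (d.1 : ℕ) → R.e (φ m) = d.2.2)

/-- description of a group with a normal subgroup of small index isomorphic to `R.X` -/
def DescS {M K L : ℕ} (R : Rep K L) (H : Type) [Group H] (d : DatS M K L) : Prop :=
  ∃ (N : Subgroup H) (_ : N.Normal) (τ : Fin d.1 → H) (φ : N ≃* R.X) (c : Fin d.1 → Fin d.1 → N),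
    (∀ h : H, ∃! a, (τ a)⁻¹ * h ∈ N) ∧
    (∀ a b, τ a * τ b = τ (d.2.1 a b) * c a b) ∧
    (∀ a b, R.e (φ (c a b)) = d.2.2.2 a b) ∧
    (∀ a j, R.e (φ (MulAut.conjNormal (τ a)⁻¹ (φ.symm (R.g j)))) = d.2.2.1 a j)

/-- conjugations which agree on the generators agree -/
theorem conj_agree {K L : ℕ} (R : Rep K L) {H H' : Type} [Group H] [Group H'] {N : Subgroup H}
    {N' : Subgroup H'} [N.Normal] [N'.Normal] (φ : N ≃* R.X) (φ' : N' ≃* R.X) (x : H) (x' : H')
    (h : ∀ j, R.e (φ (MulAut.conjNormal x (φ.symm (R.g j)))) =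
      R.e (φ' (MulAut.conjNormal x' (φ'.symm (R.g j))))) (n : N) :
    φ'.symm (φ (MulAut.conjNormal x n)) = MulAut.conjNormal x' (φ'.symm (φ n)) := by
  set α : R.X →* R.X :=
    ((φ.symm.trans (MulAut.conjNormal x)).trans φ).toMonoidHom with hα
  set β : R.X →* R.X :=
    ((φ'.symm.trans (MulAut.conjNormal x')).trans φ').toMonoidHom with hβ
  have h1 : α = β := by
    apply MonoidHom.eq_of_eqOn_dense R.gen
    rintro _ ⟨j, rfl⟩
    exact R.inj (h j)
  have h2 : α (φ n) = β (φ n) := by rw [h1]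
  have h3 : α (φ n) = φ (MulAut.conjNormal x n) := by
    simp [hα]
  have h4 : β (φ n) = φ' (MulAut.conjNormal x' (φ'.symm (φ n))) := by
    simp [hβ]
  rw [← h3, h2, h4, MulEquiv.symm_apply_apply]

theorem isoP {K L : ℕ} (R : Rep K L) {H H' : Type} [Group H] [Group H'] (d : DatP K L)
    (h : DescP R H d) (h' : DescP R H' d) : Nonempty (H ≃* H') := by
  obtain ⟨N, hN, x, φ, hp, hi, hx, ha, hw⟩ := h
  obtain ⟨N', hN', x', φ', -, hi', hx', ha', hw'⟩ := h'
  have hc := conj_agree R φ φ' x x' (fun j => by rw [ha j, ha' j])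
  refine ext_prime hp hi hi' hx hx' (φ.trans φ'.symm) ?_ ?_
  · intro n m hm
    have h1 : m = MulAut.conjNormal x n := by
      apply Subtype.ext
      rw [hm, MulAut.conjNormal_apply]
    rw [h1]
    have h2 := hc n
    simp only [MulEquiv.trans_apply]
    rw [h2, MulAut.conjNormal_apply]
  · intro m hm
    have hmem : x' ^ (d.1 : ℕ) ∈ N' := by
      rw [← hi']
      exact N'.pow_index_mem x'
    have h1 := hw m hm
    have h2 := hw' ⟨_, hmem⟩ rfl
    have h3 : φ m = φ' ⟨_, hmem⟩ := R.inj (h1.trans h2.symm)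
    simp only [MulEquiv.trans_apply]
    rw [h3, MulEquiv.symm_apply_apply]

theorem isoS {M K L : ℕ} (R : Rep K L) {H H' : Type} [Group H] [Group H'] (d : DatS M K L)
    (h : DescS R H d) (h' : DescS R H' d) : Nonempty (H ≃* H') := by
  obtain ⟨N, hN, τ, φ, c, hτ, hm, hc, ha⟩ := h
  obtain ⟨N', hN', τ', φ', c', hτ', hm', hc', ha'⟩ := h'
  have hcc : ∀ a b, φ'.symm (φ (c a b)) = c' a b := by
    intro a b
    have h3 : φ (c a b) = φ' (c' a b) := R.inj ((hc a b).trans (hc' a b).symm)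
    rw [h3, MulEquiv.symm_apply_apply]
  refine ext_table τ τ' hτ hτ' (φ.trans φ'.symm) d.2.1 c hm ?_ ?_
  · intro a b
    rw [hm' a b]
    simp only [MulEquiv.trans_apply]
    rw [hcc a b]
  · intro a n m hnm
    have hag := conj_agree R φ φ' (τ a)⁻¹ (τ' a)⁻¹ (fun j => by rw [ha a j, ha' a j]) n
    have h1 : m = MulAut.conjNormal (τ a)⁻¹ n := by
      apply Subtype.ext
      rw [hnm, MulAut.conjNormal_apply, inv_inv]
    rw [h1]
    simp only [MulEquiv.trans_apply]
    rw [hag, MulAut.conjNormal_apply, inv_inv]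

theorem exP {K L : ℕ} (R : Rep K L) {H : Type} [Group H] (N : Subgroup H) [hN : N.Normal]
    (hp : N.index.Prime) (hK : N.index ≤ K) (φ : N ≃* R.X) : ∃ d, DescP R H d := by
  have h1 : N ≠ ⊤ := by
    rintro rfl
    rw [Subgroup.index_top] at hp
    exact Nat.not_prime_one hp
  obtain ⟨x, hx⟩ : ∃ x, x ∉ N := by
    by_contra hcon
    push Not at hcon
    exact h1 (Subgroup.eq_top_iff' N |>.mpr hcon)
  refine ⟨(⟨N.index, by omega⟩, fun j => R.e (φ (MulAut.conjNormal x (φ.symm (R.g j)))),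
    R.e (φ ⟨x ^ N.index, N.pow_index_mem x⟩)), N, hN, x, φ, hp, rfl, hx, fun j => rfl, ?_⟩
  intro m hm
  have : m = ⟨x ^ N.index, N.pow_index_mem x⟩ := Subtype.ext hm
  rw [this]

theorem exS {M K L : ℕ} (R : Rep K L) {H : Type} [Group H] [Finite H] (N : Subgroup H)
    [hN : N.Normal] (hM : N.index ≤ M) (φ : N ≃* R.X) : ∃ d : DatS M K L, DescS R H d := by
  have hcard : Nat.card (H ⧸ N) = N.index := rfl
  obtain ⟨E⟩ : Nonempty (H ⧸ N ≃ Fin N.index) := ⟨Finite.equivFinOfCardEq hcard⟩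
  set τ : Fin N.index → H := fun a => (E.symm a).out with hτ
  have hτ1 : ∀ a, ((τ a : H) : H ⧸ N) = E.symm a := fun a => QuotientGroup.out_eq' _
  set mul : Fin N.index → Fin N.index → Fin N.index := fun a b => E ((τ a * τ b : H) : H ⧸ N)
    with hmul
  have hmem : ∀ a b, (τ (mul a b))⁻¹ * (τ a * τ b) ∈ N := by
    intro a b
    rw [← QuotientGroup.eq, hτ1, hmul]
    simp
  set c : Fin N.index → Fin N.index → N := fun a b => ⟨_, hmem a b⟩ with hc
  refine ⟨⟨⟨N.index, by omega⟩, mul,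
    fun a j => R.e (φ (MulAut.conjNormal (τ a)⁻¹ (φ.symm (R.g j)))),
    fun a b => R.e (φ (c a b))⟩, N, hN, τ, φ, c, ?_, ?_, fun a b => rfl, fun a j => rfl⟩
  · intro h
    refine ⟨E (h : H ⧸ N), ?_, ?_⟩
    · change (τ (E (h : H ⧸ N)))⁻¹ * h ∈ N
      rw [← QuotientGroup.eq, hτ1]
      simp
    · intro a ha
      change (τ a)⁻¹ * h ∈ N at ha
      rw [← QuotientGroup.eq, hτ1] at ha
      rw [← ha]
      simp
  · intro a b
    change τ a * τ b = τ (mul a b) * ((τ (mul a b))⁻¹ * (τ a * τ b))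
    group

theorem exists_rep {K L : ℕ} {X : Type} [Group X] [Finite X] (hK : Nat.card X ≤ K)
    (hL : Nat.card X < 2 ^ (L + 1)) : ∃ R : Rep K L, Nonempty (X ≃* R.X) := by
  obtain ⟨g, hg⟩ := LG.exists_gen (A := X) L ⊤ (by rwa [Subgroup.card_top])
  exact ⟨⟨X, inferInstance, fun x => Fin.castLE hK (Finite.equivFin X x), g,
    fun a b h => (Finite.equivFin X).injective (Fin.castLE_injective hK h), hg⟩,
    ⟨MulEquiv.refl X⟩⟩

theorem iso_of_card_one {H H' : Type} [Group H] [Group H'] (h : Nat.card H = 1)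
    (h' : Nat.card H' = 1) : Nonempty (H ≃* H') := by
  have h1 : Subsingleton H := (Nat.card_eq_one_iff_unique.mp h).1
  have h2 : Subsingleton H' := (Nat.card_eq_one_iff_unique.mp h').1
  exact ⟨{ toFun := fun _ => 1, invFun := fun _ => 1, left_inv := fun _ => Subsingleton.elim _ _,
           right_inv := fun _ => Subsingleton.elim _ _,
           map_mul' := fun _ _ => Subsingleton.elim _ _ }⟩

/-- the groups of the class with less than `2 ^ (l + 1)` elements -/
structure InC (M K l : ℕ) (H : Type) (iH : Group H) : Prop where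
  fin : Finite H
  card : Nat.card H ≤ K
  lt : Nat.card H < 2 ^ (l + 1)
  ser : Ser M H

/-- description of a group by a pair (type of a normal subgroup, datum) -/
def Desc {M K L : ℕ} {T : Type} (R : T → Rep K L) (H : Type) (iH : Group H) :
    Option (T × (DatP K L ⊕ DatS M K L)) → Prop
  | none => Nat.card H = 1
  | some (t, Sum.inl d) => DescP (R t) H d
  | some (t, Sum.inr d) => DescS (R t) H d

theorem iso_of_desc {M K L : ℕ} {T : Type} (R : T → Rep K L) (H H' : Type) (iH : Group H)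
    (iH' : Group H') (o : Option (T × (DatP K L ⊕ DatS M K L))) (h : Desc R H iH o)
    (h' : Desc R H' iH' o) : Nonempty (H ≃* H') := by
  rcases o with _ | ⟨t, d | d⟩
  · exact iso_of_card_one h h'
  · exact isoP (R t) d h h'
  · exact isoS (R t) d h h'

theorem exists_desc {M K L l : ℕ} {T : Type} (R : T → Rep K L)
    (code : (H : Type) → Group H → T)
    (hR : ∀ (N : Type) (iN : Group N), InC M K l N iN → Nonempty (N ≃* (R (code N iN)).X))
    (H : Type) (iH : Group H) (hH : InC M K (l + 1) H iH) :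
    ∃ o : Option (T × (DatP K L ⊕ DatS M K L)), Desc R H iH o := by
  have : Finite H := hH.fin
  by_cases h1 : Nat.card H = 1
  · exact ⟨none, h1⟩
  have h0 : 0 < Nat.card H := Nat.card_pos
  obtain ⟨N, hN, hNT, hidx, hser⟩ := ser_descend hH.ser (by omega)
  have hmul := N.card_mul_index
  have hN0 : 0 < Nat.card N := Nat.card_pos
  have hi0 : N.index ≠ 0 := Subgroup.index_ne_zero_of_finite
  have hi1 : N.index ≠ 1 := fun h => hNT (Subgroup.index_eq_one.mp h)
  have hi2 : 2 ≤ N.index := by omega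
  have hNK : Nat.card N ≤ K := (Subgroup.card_le_card_group N).trans hH.card
  have hNl : Nat.card N < 2 ^ (l + 1) := by
    have h2 := hH.lt
    rw [pow_succ] at h2
    have h3 : Nat.card N * 2 ≤ Nat.card H := by
      rw [← hmul]
      exact Nat.mul_le_mul_left _ hi2
    omega
  have hiK : N.index ≤ K := by
    refine le_trans ?_ hH.card
    rw [← hmul]
    exact Nat.le_mul_of_pos_left _ hN0
  obtain ⟨φ⟩ := hR N inferInstance ⟨inferInstance, hNK, hNl, hser⟩
  rcases hidx with hp | hM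
  · obtain ⟨d, hd⟩ := exP (R (code N inferInstance)) N hp hiK φ
    exact ⟨some (code N inferInstance, Sum.inl d), hd⟩
  · obtain ⟨d, hd⟩ := exS (M := M) (R (code N inferInstance)) N hM φ
    exact ⟨some (code N inferInstance, Sum.inr d), hd⟩

theorem level (M K L : ℕ) (hK : 1 ≤ K) (hL : K < 2 ^ (L + 1)) (l : ℕ) :
    ∃ (T : Type) (_ : Finite T) (code : (H : Type) → Group H → T),
      Nat.card T ≤ (Nat.card (DatP K L ⊕ DatS M K L) + 1) ^ l ∧
      ∀ (H H' : Type) (iH : Group H) (iH' : Group H'), InC M K l H iH → InC M K l H' iH' →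
        code H iH = code H' iH' → Nonempty (H ≃* H') := by
  classical
  induction l with
  | zero =>
    refine ⟨Unit, inferInstance, fun _ _ => (), by simp, ?_⟩
    intro H H' iH iH' h h' _
    have h1 := h.fin
    have h1' := h'.fin
    have h2 : 0 < Nat.card H := Nat.card_pos
    have h2' : 0 < Nat.card H' := Nat.card_pos
    have h3 := h.lt
    have h3' := h'.lt
    exact iso_of_card_one (by omega) (by omega)
  | succ l ih =>
    obtain ⟨T, hT, code, hcard, hcode⟩ := ih
    have hex : ∀ t : T, ∃ R : Rep K L, ∀ (N : Type) (iN : Group N), InC M K l N iN →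
        code N iN = t → Nonempty (N ≃* R.X) := by
      intro t
      by_cases h : ∃ (N : Type) (iN : Group N), InC M K l N iN ∧ code N iN = t
      · obtain ⟨N₀, iN₀, h0, hc0⟩ := h
        have : Finite N₀ := h0.fin
        obtain ⟨R, ⟨φ⟩⟩ := exists_rep (X := N₀) h0.card (lt_of_le_of_lt h0.card hL)
        refine ⟨R, fun N iN hN hc => ?_⟩
        obtain ⟨ψ⟩ := hcode N N₀ iN iN₀ hN h0 (hc.trans hc0.symm)
        exact ⟨ψ.trans φ⟩
      · obtain ⟨R, -⟩ := exists_rep (K := K) (L := L) (X := Multiplicative (Fin 1))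
          (by simpa using hK) (by
            have : (2 : ℕ) ^ (L + 1) = 2 ^ L * 2 := pow_succ 2 L
            have h2 : 1 ≤ 2 ^ L := Nat.one_le_two_pow
            simp only [Nat.card_eq_fintype_card, Fintype.card_multiplicative, Fintype.card_fin]
            omega)
        exact ⟨R, fun N iN hN hc => absurd ⟨N, iN, hN, hc⟩ h⟩
    choose R hR using hex
    refine ⟨Option (T × (DatP K L ⊕ DatS M K L)), inferInstance,
      fun H iH => if h : ∃ o : Option (T × (DatP K L ⊕ DatS M K L)), Desc R H iH o then h.choose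
        else none, ?_, ?_⟩
    · rw [Finite.card_option, Nat.card_prod, pow_succ, mul_add, mul_one]
      have h1 : 1 ≤ (Nat.card (DatP K L ⊕ DatS M K L) + 1) ^ l := Nat.one_le_pow _ _ (by omega)
      have h2 : Nat.card T * Nat.card (DatP K L ⊕ DatS M K L) ≤
          (Nat.card (DatP K L ⊕ DatS M K L) + 1) ^ l * Nat.card (DatP K L ⊕ DatS M K L) :=
        Nat.mul_le_mul_right _ hcard
      omega
    · intro H H' iH iH' h h' heq
      have e1 := exists_desc R code (fun N iN hN => hR _ N iN hN rfl) H iH h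
      have e2 := exists_desc R code (fun N iN hN => hR _ N iN hN rfl) H' iH' h'
      simp only [dif_pos e1, dif_pos e2] at heq
      refine iso_of_desc R H H' iH iH' _ e1.choose_spec ?_
      rw [heq]
      exact e2.choose_spec

theorem card_datP (K L : ℕ) : Nat.card (DatP K L) = (K + 1) * (K ^ L * K) := by
  simp [DatP, Nat.card_eq_fintype_card]

theorem card_datS_le {M K L B : ℕ} (hB : 2 ≤ B) (hKB : K ≤ B) (hMB : M + 1 ≤ B) :
    Nat.card (DatS M K L) ≤ B ^ (1 + (M * M + (L * M + M * M))) := by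
  have h1 : Nat.card (DatS M K L) = ∑ k : Fin (M + 1),
      (((k : ℕ) ^ (k : ℕ)) ^ (k : ℕ) * ((K ^ L) ^ (k : ℕ) * (K ^ (k : ℕ)) ^ (k : ℕ))) := by
    simp [DatS, Nat.card_eq_fintype_card, Fintype.card_sigma]
  rw [h1]
  have h2 : ∀ k ∈ (Finset.univ : Finset (Fin (M + 1))),
      (((k : ℕ) ^ (k : ℕ)) ^ (k : ℕ) * ((K ^ L) ^ (k : ℕ) * (K ^ (k : ℕ)) ^ (k : ℕ))) ≤
        B ^ (M * M + (L * M + M * M)) := by
    intro k _
    have hk : (k : ℕ) ≤ M := by have := k.2; omega
    have hB1 : 1 ≤ B := by omega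
    rw [← pow_mul, ← pow_mul, ← pow_mul, pow_add, pow_add]
    refine Nat.mul_le_mul ?_ (Nat.mul_le_mul ?_ ?_)
    · exact (Nat.pow_le_pow_left (by omega) _).trans
        (Nat.pow_le_pow_right hB1 (Nat.mul_le_mul hk hk))
    · exact (Nat.pow_le_pow_left hKB _).trans
        (Nat.pow_le_pow_right hB1 (Nat.mul_le_mul_left _ hk))
    · exact (Nat.pow_le_pow_left hKB _).trans
        (Nat.pow_le_pow_right hB1 (Nat.mul_le_mul hk hk))
  refine (Finset.sum_le_card_nsmul _ _ _ h2).trans ?_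
  rw [Finset.card_univ, Fintype.card_fin, smul_eq_mul, pow_add B 1, pow_one]
  exact Nat.mul_le_mul_right _ hMB

theorem card_dat_le {M K L B : ℕ} (hM : 1 ≤ M) (hK : 1 ≤ K) (hB : B = 2 * M * K) :
    Nat.card (DatP K L ⊕ DatS M K L) + 1 ≤ B ^ (8 * (M + L + 1) ^ 2) := by
  have hMK : 1 ≤ M * K := Nat.mul_pos hM hK
  have hB2 : 2 ≤ B := by rw [hB, mul_assoc]; omega
  have hB1 : 1 ≤ B := by omega
  have hKM : K ≤ M * K := Nat.le_mul_of_pos_left _ hM
  have hMKM : M ≤ M * K := Nat.le_mul_of_pos_right _ hK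
  have hKB : K ≤ B := by rw [hB, mul_assoc]; omega
  have hKB1 : K + 1 ≤ B := by rw [hB, mul_assoc]; omega
  have hMB : M + 1 ≤ B := by rw [hB, mul_assoc]; omega
  have hS := card_datS_le (L := L) hB2 hKB hMB
  have hP : Nat.card (DatP K L) ≤ B ^ (1 + (L + 1)) := by
    rw [card_datP, pow_add, pow_one, ← pow_succ]
    exact Nat.mul_le_mul hKB1 (Nat.pow_le_pow_left hKB _)
  rw [Nat.card_sum]
  set s := 2 * (M + L + 1) ^ 2 with hs
  have e1 : 1 + (L + 1) ≤ s := by rw [hs]; nlinarith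
  have e2 : 1 + (M * M + (L * M + M * M)) ≤ s := by rw [hs]; nlinarith
  have f1 := hP.trans (Nat.pow_le_pow_right hB1 e1)
  have f2 := hS.trans (Nat.pow_le_pow_right hB1 e2)
  have f3 : 1 ≤ B ^ s := Nat.one_le_pow _ _ hB1
  have f4 : B ^ s * 4 ≤ B ^ (s + 2) := by
    rw [pow_add]
    exact Nat.mul_le_mul_left _ (by nlinarith)
  have f5 : B ^ (s + 2) ≤ B ^ (8 * (M + L + 1) ^ 2) :=
    Nat.pow_le_pow_right hB1 (by rw [hs]; nlinarith)
  omega

theorem exists_types (M K : ℕ) (hM : 1 ≤ M) (hK : 1 ≤ K) :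
    ∃ (T : Type) (_ : Finite T) (code : (H : Type) → Group H → T),
      Nat.card T ≤ (2 * M * K) ^ (8 * (M + Nat.log 2 K + 1) ^ 3) ∧
      ∀ (H H' : Type) (iH : Group H) (iH' : Group H'), Finite H → Finite H' →
        Nat.card H ≤ K → Nat.card H' ≤ K → Ser M H → Ser M H' →
        code H iH = code H' iH' → Nonempty (H ≃* H') := by
  set L := Nat.log 2 K with hLdef
  have hL : K < 2 ^ (L + 1) := Nat.lt_pow_succ_log_self (by norm_num) K
  obtain ⟨T, hT, code, hcard, hcode⟩ := level M K L hK hL L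
  refine ⟨T, hT, code, hcard.trans ?_, ?_⟩
  · have h1 := card_dat_le (L := L) hM hK rfl
    have hB1 : 1 ≤ 2 * M * K := Nat.mul_pos (by omega) hK
    refine (Nat.pow_le_pow_left h1 _).trans ?_
    rw [← pow_mul]
    refine Nat.pow_le_pow_right hB1 ?_
    rw [mul_assoc, pow_succ (M + L + 1) 2]
    exact Nat.mul_le_mul_left _ (Nat.mul_le_mul_left _ (by omega))
  · intro H H' iH iH' hf hf' hc hc' hs hs' he
    exact hcode H H' iH iH' ⟨hf, hc, lt_of_le_of_lt hc hL, hs⟩ ⟨hf', hc', lt_of_le_of_lt hc' hL, hs'⟩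
      he

end Pool.Agent.Helper72.LGS
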